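import Pool.Agent.helper18.PQ.GIDc
import Pool.Agent.helper83.OD.AllO

/-! # MP_ebc808: row GID of project pq -/

set_option autoImplicit false

namespace Pool.Agent.PQ

open Pool.Agent.EP

theorem GID (hVCL : VCL_stmt) (hGV : GV_stmt) (hJC : JC_stmt) : GID_stmt :=
  GID_core all_JW JN all_NEG WM hVCL hGV hJC

end Pool.Agent.PQ
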