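import Pool.Agent.helper7.PQ.Spec

/-! # MP_ebc808: row GID of project pq, with the imported facts as hypotheses -/

set_option autoImplicit false

open Finset PowerSeries

noncomputable section

namespace Pool.Agent.PQ

open Pool.Agent.EP

theorem GID_mod {d : ℕ} (hd : Nat.Coprime d 6) : d % 2 = 1 ∧ d % 3 ≠ 0 := by
  refine ⟨?_, ?_⟩
  · by_contra h
    have h2 : 2 ∣ d := by omega
    have h3 : 2 ∣ Nat.gcd d 6 := Nat.dvd_gcd h2 (by norm_num)
    rw [Nat.Coprime] at hd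
    rw [hd] at h3
    omega
  · intro h
    have h2 : 3 ∣ d := by omega
    have h3 : 3 ∣ Nat.gcd d 6 := Nat.dvd_gcd h2 (by norm_num)
    rw [Nat.Coprime] at hd
    rw [hd] at h3
    omega

theorem GID_cop {d : ℕ} (h2 : d % 2 = 1) (h3 : d % 3 ≠ 0) : Nat.Coprime d 6 := by
  have h8 : Nat.Coprime d 2 :=
    ((Nat.Prime.coprime_iff_not_dvd Nat.prime_two).2 (by omega)).symm
  have h9 : Nat.Coprime d 3 :=
    ((Nat.Prime.coprime_iff_not_dvd Nat.prime_three).2 (by omega)).symm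
  exact Nat.Coprime.mul_right h8 h9

theorem GID_sq {d : ℕ} (hd : Nat.Coprime d 6) : d ^ 2 % 3 = 1 := by
  obtain ⟨-, h3⟩ := GID_mod hd
  have h6 : d % 3 < 3 := Nat.mod_lt _ (by norm_num)
  rw [Nat.pow_mod]
  generalize d % 3 = r at h3 h6
  interval_cases r <;> simp_all

theorem GID_two (b : ℕ) (hb : b % 2 = 1) : 2 ^ b % 2 = 0 ∧ 2 ^ b % 3 = 2 := by
  obtain ⟨c, rfl⟩ : ∃ c, b = 2 * c + 1 := ⟨b / 2, by omega⟩
  refine ⟨?_, ?_⟩
  · rw [pow_succ]
    omega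
  · rw [pow_succ, pow_mul, Nat.mul_mod, Nat.pow_mod]
    norm_num

theorem GID_u {b k u : ℕ} (hb : b % 2 = 1) (hk : k % 6 = 1) (hu : u ∈ uB b k) : 2 ^ b * u ^ 2 < k ∧
    Nat.Coprime (k - 2 ^ b * u ^ 2) 6 ∧ ((k - 2 ^ b * u ^ 2 : ℕ) : ℤ) = k - 2 ^ b * (u : ℤ) ^ 2 := by
  obtain ⟨-, hc, hle⟩ := Finset.mem_filter.1 hu
  obtain ⟨h2, h3⟩ := GID_two b hb
  have hsq := GID_sq hc
  have h4 : (2 ^ b * u ^ 2) % 2 = 0 := by rw [Nat.mul_mod, h2]; simp
  have h5 : (2 ^ b * u ^ 2) % 3 = 2 := by rw [Nat.mul_mod, h3, hsq]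
  have hlt : 2 ^ b * u ^ 2 < k := by omega
  refine ⟨hlt, GID_cop (by omega) (by omega), ?_⟩
  rw [Nat.cast_sub hlt.le]
  push_cast
  ring

theorem GID_core (hJW : JW_stmt) (hJN : JN_stmt) (hNEG : NEG_stmt) (hWM : WM_stmt) (hVCL : VCL_stmt)
    (hGV : GV_stmt) (hJC : JC_stmt) : GID_stmt := by
  classical
  intro b k hb hk
  have hkc : Nat.Coprime k 6 := GID_cop (by omega) (by omega)
  have hk0 : 0 < k := by omega
  obtain ⟨s, hs1, hsJ, hsv⟩ := hJC k hkc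
  obtain ⟨hB2, -⟩ := GID_two b hb
  have hinv : ww * vvx = 1 := hWM.2
  have hBs : 2 ^ b ∉ s := by
    intro h
    have h1 := hsv (2 ^ b) (Nat.one_le_two_pow)
    rw [if_pos h] at h1
    have h2 := (hVCL (2 ^ b) (k : ℤ) (by rw [h1]; exact one_ne_zero)).1
    have h3 : (2 : ℤ) ∣ (k : ℤ) - ((2 ^ b : ℕ) : ℤ) := dvd_trans (by norm_num) h2
    omega
  set f : KK := ∑ i ∈ s, ww ^ i with hf
  set g1 : KK := ∑ i ∈ s with 2 ^ b < i, ww ^ (i - 2 ^ b) with hg1
  set g2 : KK := ∑ i ∈ s with i < 2 ^ b, vvx ^ (2 ^ b - i) with hg2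
  have hfv : f * vvx ^ (2 ^ b) = g1 + g2 := by
    rw [hf, Finset.sum_mul, hg1, hg2, Finset.sum_filter, Finset.sum_filter, ← Finset.sum_add_distrib]
    refine Finset.sum_congr rfl fun i hi => ?_
    rcases lt_trichotomy i (2 ^ b) with h | h | h
    · rw [if_neg (by omega), if_pos h, zero_add]
      have e1 : vvx ^ (2 ^ b) = vvx ^ i * vvx ^ (2 ^ b - i) := by rw [← pow_add]; congr 1; omega
      rw [e1, ← mul_assoc, ← mul_pow, hinv, one_pow, one_mul]
    · exact absurd (h ▸ hi) hBs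
    · rw [if_pos h, if_neg (by omega), add_zero]
      have e1 : ww ^ i = ww ^ (i - 2 ^ b) * ww ^ (2 ^ b) := by rw [← pow_add]; congr 1; omega
      rw [e1, mul_assoc, ← mul_pow, hinv, one_pow, mul_one]
  have hf0 : ∀ N : ℤ, N < -(k : ℤ) → f.coeff N = 0 := by
    intro N hN
    rw [hsJ N, hJN k N hk0 (by omega), if_neg (by omega)]
  have hg1W : g1 ∈ WW := by
    refine Submodule.sum_mem _ fun i hi => Submodule.subset_span ⟨i - 2 ^ b, ?_, rfl⟩
    have := (Finset.mem_filter.1 hi).2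
    omega
  have hg2c : ∀ M : ℤ, M < 0 → g2.coeff M = 0 := by
    intro M hM
    rw [hg2, HahnSeries.coeff_sum]
    refine Finset.sum_eq_zero fun i hi => ?_
    by_contra h
    have := (hVCL _ M h).2
    omega
  have hex : ∀ u : ℕ, ∃ q : KK, u ∈ uB b k →
      q ∈ WW ∧ ∀ M : ℤ, q.coeff M = JG ac (k - 2 ^ b * u ^ 2) M := by
    intro u
    by_cases hu : u ∈ uB b k
    · obtain ⟨h1, h2, -⟩ := GID_u hb hk hu
      obtain ⟨q, hq, hq'⟩ := hJW _ (by omega) h2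
      exact ⟨q, fun _ => ⟨hq, hq'⟩⟩
    · exact ⟨0, fun h => absurd h hu⟩
  choose q hq using hex
  set F : KK := g1 + ∑ u ∈ uB b k, q u with hF
  have hFW : F ∈ WW :=
    Submodule.add_mem _ hg1W (Submodule.sum_mem _ fun u hu => (hq u hu).1)
  have hgc : ∀ M : ℤ, g1.coeff M = (∑ u ∈ uB b (M + k).toNat, JG ac k (M - 2 ^ b * (u : ℤ) ^ 2)) -
      g2.coeff M := by
    intro M
    have h1 : g1 = f * vvx ^ (2 ^ b) - g2 := by rw [hfv]; abel
    rw [h1, HahnSeries.coeff_sub, hGV b k f hf0 M]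
    congr 1
    exact Finset.sum_congr rfl fun u _ => hsJ _
  have hFc : ∀ M : ℤ, F.coeff M = g1.coeff M + ∑ u ∈ uB b k, JG ac (k - 2 ^ b * u ^ 2) M := by
    intro M
    have h9 : (∑ u ∈ uB b k, q u).coeff M = ∑ u ∈ uB b k, (q u).coeff M := by
      rw [HahnSeries.coeff_sum]
    rw [hF, HahnSeries.coeff_add, h9]
    congr 1
    exact Finset.sum_congr rfl fun u hu => (hq u hu).2 M
  have hneg : ∀ M : ℤ, M < 0 → F.coeff M = 0 := by
    intro M hM
    rw [hFc, hgc, hg2c M hM, sub_zero]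
    have e1 : ∑ u ∈ uB b (M + k).toNat, JG ac k (M - 2 ^ b * (u : ℤ) ^ 2) =
        ∑ u ∈ uB b (M + k).toNat, if 2 ^ b * (u : ℤ) ^ 2 = M + k then (1 : ZMod 2) else 0 := by
      refine Finset.sum_congr rfl fun u _ => ?_
      have hsq : 0 ≤ 2 ^ b * (u : ℤ) ^ 2 := by positivity
      rw [hJN k _ hk0 (by omega)]
      have hiff : (M - 2 ^ b * (u : ℤ) ^ 2 = -(k : ℤ)) ↔ 2 ^ b * (u : ℤ) ^ 2 = M + k := by
        constructor <;> intro h <;> linarith
      simp only [hiff]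
    have e2 : ∑ u ∈ uB b k, JG ac (k - 2 ^ b * u ^ 2) M =
        ∑ u ∈ uB b k, if 2 ^ b * (u : ℤ) ^ 2 = M + k then (1 : ZMod 2) else 0 := by
      refine Finset.sum_congr rfl fun u hu => ?_
      obtain ⟨h1, -, h3⟩ := GID_u hb hk hu
      rw [hJN _ M (by omega) hM, h3]
      have hiff : (M = -((k : ℤ) - 2 ^ b * (u : ℤ) ^ 2)) ↔ 2 ^ b * (u : ℤ) ^ 2 = M + k := by
        constructor <;> intro h <;> linarith
      simp only [hiff]
    have e3 : (uB b (M + k).toNat).filter (fun u : ℕ => 2 ^ b * (u : ℤ) ^ 2 = M + k) =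
        (uB b k).filter (fun u : ℕ => 2 ^ b * (u : ℤ) ^ 2 = M + k) := by
      ext u
      simp only [uB, Finset.mem_filter, Finset.mem_range]
      constructor
      · rintro ⟨⟨h1, h2, h3⟩, h4⟩
        have h5 : 2 ^ b * u ^ 2 ≤ k := by
          have : ((2 ^ b * u ^ 2 : ℕ) : ℤ) ≤ k := by push_cast; omega
          exact_mod_cast this
        exact ⟨⟨by omega, h2, h5⟩, h4⟩
      · rintro ⟨⟨h1, h2, h3⟩, h4⟩
        have h5 : 2 ^ b * u ^ 2 = (M + k).toNat := by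
          have : ((2 ^ b * u ^ 2 : ℕ) : ℤ) = M + k := by push_cast; exact h4
          omega
        refine ⟨⟨?_, h2, h5.le⟩, h4⟩
        rw [← h5]
        have h6 : 1 ≤ 2 ^ b := Nat.one_le_two_pow
        have h7 : u ≤ u ^ 2 := Nat.le_self_pow (by norm_num) u
        have h8 : u ^ 2 ≤ 2 ^ b * u ^ 2 := Nat.le_mul_of_pos_left _ (by omega)
        omega
    rw [e1, e2, ← Finset.sum_filter, ← Finset.sum_filter, e3]
    exact CharTwo.add_self_eq_zero _
  have hF0 : F = 0 := hNEG F hFW hneg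
  intro M
  have h1 := hFc M
  rw [hF0, HahnSeries.coeff_zero, hgc] at h1
  have h2 : g2.coeff M = ∑ i ∈ Ico 1 (2 ^ b), (vvx ^ i).coeff (k : ℤ) * (vvx ^ (2 ^ b - i)).coeff M := by
    have h3 : s.filter (fun i => i < 2 ^ b) = (Ico 1 (2 ^ b)).filter (fun i => i ∈ s) := by
      ext i
      simp only [Finset.mem_filter, Finset.mem_Ico]
      constructor
      · rintro ⟨h4, h5⟩
        exact ⟨⟨hs1 i h4, h5⟩, h4⟩
      · rintro ⟨⟨-, h5⟩, h4⟩
        exact ⟨h4, h5⟩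
    rw [hg2, HahnSeries.coeff_sum, h3, Finset.sum_filter]
    refine Finset.sum_congr rfl fun i hi => ?_
    rw [hsv i (Finset.mem_Ico.1 hi).1]
    split_ifs
    · rw [one_mul]
    · rw [zero_mul]
  rw [← h2]
  linear_combination -h1

end Pool.Agent.PQ
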